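import Mathlib

/-!
# Monotonicity in `t` of the number of hooks of length two in the `t`-regular partitions

For all `t ≥ 3` and `n ≥ 0` we prove `b_{t,2}(n) ≤ b_{t+1,2}(n)`.

Write `L(e)` for the number of `t`-regular partitions of `n - e` (zero for `e > n`). The number of hooks
of length two of a partition is the number of the part sizes of multiplicity at least two, plus the
number of the part sizes `s ≥ 2` such that `s - 1` is not a part. Counting the partitions which
contain given parts expresses `b_{t,2}(n)` by the numbers `L(e)`. This expression `S_t(L)` is monotone in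
`L` if `t` is even, the number of the `t`-regular partitions grows with `t` (Glaisher), and
`S_t(L) ≤ S_{t+1}(L)` follows from the nonnegativity of the numbers of the partitions without the
parts `1` and `2`, respectively `1` and `t - 1`.
-/

set_option autoImplicit false

namespace Pool.Agent.Results.MP_6996b5_co.HookTwo

open Finset

/-- The length of row `i` of the Young diagram of `p`, rows and columns being numbered from `0`:
the `i`-th largest part of `p`, and `0` if `p` has at most `i` parts. -/
def row {n : ℕ} (p : n.Partition) (i : ℕ) : ℕ := (p.parts.sort (· ≥ ·)).getD i 0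

/-- The length of column `j` of the Young diagram of `p` (a part of the conjugate partition): the
number of the rows of length larger than `j`. -/
def col {n : ℕ} (p : n.Partition) (j : ℕ) : ℕ := p.parts.countP (fun a => j < a)

/-- The cells `(i, j)` of the Young diagram of a partition of `n`: `j < λ_i`. -/
def cells {n : ℕ} (p : n.Partition) : Finset (ℕ × ℕ) :=
  (range n ×ˢ range n).filter (fun c => c.2 < row p c.1)

/-- The hook length of the cell `(i, j)`: the number of the cells to the right of it, plus the number
of the cells below it, plus one. -/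
def hook {n : ℕ} (p : n.Partition) (i j : ℕ) : ℕ := (row p i - (j + 1)) + (col p j - (i + 1)) + 1

/-- `h_k(λ)`: the number of the cells of hook length `k`. -/
def hooks {n : ℕ} (k : ℕ) (p : n.Partition) : ℕ := ((cells p).filter (fun c => hook p c.1 c.2 = k)).card

/-- The `t`-regular partitions of `n`: no part is divisible by `t`. -/
def regular (t n : ℕ) : Finset n.Partition := univ.filter (fun p => ∀ a ∈ p.parts, ¬ t ∣ a)

/-- `b_{t,k}(n)`: the number of hooks of length `k` in all `t`-regular partitions of `n`. -/
def b (t k n : ℕ) : ℕ := ∑ p ∈ regular t n, hooks k p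

/-! ### rows and columns -/

theorem lt_countP_iff (l : List ℕ) (hl : l.Pairwise (· ≥ ·)) (i j : ℕ) :
    i < l.countP (fun a => decide (j < a)) ↔ j < l.getD i 0 := by
  induction l generalizing i with
  | nil => simp
  | cons a l ih =>
    rw [List.pairwise_cons] at hl
    by_cases ha : j < a
    · rw [List.countP_cons_of_pos (by simpa using ha)]
      cases i with
      | zero => simp [ha]
      | succ i =>
        rw [Nat.add_lt_add_iff_right, ih hl.2 i]
        simp
    · rw [List.countP_cons_of_neg (by simpa using ha)]
      have h0 : l.countP (fun a => decide (j < a)) = 0 := by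
        rw [List.countP_eq_zero]
        intro x hx
        have := hl.1 x hx
        simp only [decide_eq_true_eq]
        omega
      rw [h0]
      constructor
      · intro h; omega
      · intro h
        exfalso
        cases i with
        | zero =>
          simp at h
          omega
        | succ i =>
          have h2 := (ih hl.2 i).2 (by simpa using h)
          omega

theorem lt_col_iff {n : ℕ} (p : n.Partition) (i j : ℕ) : i < col p j ↔ j < row p i := by
  unfold col row
  have h1 := lt_countP_iff (p.parts.sort (· ≥ ·)) (Multiset.pairwise_sort _ _) i j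
  have h2 : (p.parts.sort (· ≥ ·)).countP (fun a => decide (j < a)) =
      p.parts.countP (fun a => j < a) := by
    rw [← Multiset.coe_countP, Multiset.sort_eq]
  rw [← h2]
  exact h1

theorem countP_succ (m : Multiset ℕ) (j : ℕ) :
    m.countP (fun a => j < a) = m.count (j + 1) + m.countP (fun a => j + 1 < a) := by
  induction m using Multiset.induction_on with
  | empty => simp
  | cons a m ih =>
    rw [Multiset.countP_cons, Multiset.countP_cons, Multiset.count_cons, ih]
    split_ifs <;> omega

theorem col_succ {n : ℕ} (p : n.Partition) (j : ℕ) :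
    col p j = p.parts.count (j + 1) + col p (j + 1) := countP_succ _ _

theorem card_parts_le {n : ℕ} (p : n.Partition) : p.parts.card ≤ n := by
  have h := Multiset.card_nsmul_le_sum (s := p.parts) (a := 1) (fun x hx => p.parts_pos hx)
  rw [p.parts_sum] at h
  simpa using h

theorem bounds {n : ℕ} (p : n.Partition) (i j : ℕ) (h : j < row p i) : i < n ∧ j < n := by
  have h1 := (lt_col_iff p i j).2 h
  constructor
  · have h2 : col p j ≤ p.parts.card := Multiset.countP_le_card _ _
    have h3 := card_parts_le p
    omega
  · have h2 : 0 < p.parts.countP (fun a => j < a) := by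
      have : 0 < col p j := by omega
      exact this
    rw [Multiset.countP_pos] at h2
    obtain ⟨a, ha, hja⟩ := h2
    have h3 : a ≤ n := by
      rw [← p.parts_sum]
      exact Multiset.le_sum_of_mem ha
    omega

theorem mem_cells {n : ℕ} (p : n.Partition) (c : ℕ × ℕ) : c ∈ cells p ↔ c.2 < row p c.1 := by
  unfold cells
  rw [Finset.mem_filter, Finset.mem_product, Finset.mem_range, Finset.mem_range]
  constructor
  · intro h; exact h.2
  · intro h; exact ⟨bounds p _ _ h, h⟩

/-- the number of hooks of length two -/
theorem hooks_two {n : ℕ} (p : n.Partition) :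
    hooks 2 p = ((range n).filter (fun k => 2 ≤ p.parts.count (k + 1))).card +
      ((range n).filter (fun k => k + 2 ∈ p.parts ∧ k + 1 ∉ p.parts)).card := by
  have hsplit : (cells p).filter (fun c => hook p c.1 c.2 = 2) =
      (cells p).filter (fun c => row p c.1 = c.2 + 1 ∧ col p c.2 = c.1 + 2) ∪
      (cells p).filter (fun c => row p c.1 = c.2 + 2 ∧ col p c.2 = c.1 + 1) := by
    ext c
    rw [Finset.mem_union, Finset.mem_filter, Finset.mem_filter, Finset.mem_filter, mem_cells, hook]
    constructor
    · rintro ⟨h1, h2⟩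
      have h3 := (lt_col_iff p c.1 c.2).2 h1
      omega
    · rintro (⟨h1, h2⟩ | ⟨h1, h2⟩)
      · exact ⟨h1, by omega⟩
      · exact ⟨h1, by omega⟩
  have hdisj : Disjoint ((cells p).filter (fun c => row p c.1 = c.2 + 1 ∧ col p c.2 = c.1 + 2))
      ((cells p).filter (fun c => row p c.1 = c.2 + 2 ∧ col p c.2 = c.1 + 1)) := by
    rw [Finset.disjoint_left]
    intro c h1 h2
    rw [Finset.mem_filter] at h1 h2
    omega
  rw [hooks, hsplit, Finset.card_union_of_disjoint hdisj]
  congr 1
  · apply Finset.card_nbij' (fun c => c.2) (fun k => (col p k - 2, k))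
    · intro c hc
      rw [Finset.mem_coe, Finset.mem_filter, mem_cells] at hc
      rw [Finset.mem_coe, Finset.mem_filter, Finset.mem_range]
      obtain ⟨h1, h2, h3⟩ := hc
      refine ⟨(bounds p _ _ h1).2, ?_⟩
      have h4 := col_succ p c.2
      have h5 : ¬ (c.1 < col p (c.2 + 1)) := by
        rw [lt_col_iff]; omega
      show 2 ≤ Multiset.count (c.2 + 1) p.parts
      omega
    · intro k hk
      rw [Finset.mem_coe, Finset.mem_filter, Finset.mem_range] at hk
      rw [Finset.mem_coe, Finset.mem_filter, mem_cells]
      obtain ⟨h1, h2⟩ := hk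
      have h3 := col_succ p k
      have h4 : k < row p (col p k - 2) := by
        rw [← lt_col_iff]; omega
      have h5 : ¬ (k + 1 < row p (col p k - 2)) := by
        rw [← lt_col_iff]; omega
      refine ⟨h4, ?_, ?_⟩
      · show row p (col p k - 2) = k + 1
        omega
      · show col p k = col p k - 2 + 2
        omega
    · intro c hc
      rw [Finset.mem_coe, Finset.mem_filter] at hc
      obtain ⟨h1, h2, h3⟩ := hc
      ext
      · show col p c.2 - 2 = c.1
        omega
      · rfl
    · intro k _
      rfl
  · apply Finset.card_nbij' (fun c => c.2) (fun k => (col p k - 1, k))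
    · intro c hc
      rw [Finset.mem_coe, Finset.mem_filter, mem_cells] at hc
      rw [Finset.mem_coe, Finset.mem_filter, Finset.mem_range]
      obtain ⟨h1, h2, h3⟩ := hc
      refine ⟨(bounds p _ _ h1).2, ?_⟩
      have h4 := col_succ p c.2
      have h4' := col_succ p (c.2 + 1)
      have h5 : ¬ (c.1 < col p (c.2 + 1 + 1)) := by
        rw [lt_col_iff]; omega
      have h6 : c.1 < col p (c.2 + 1) := by
        rw [lt_col_iff]; omega
      rw [← Multiset.one_le_count_iff_mem, ← Multiset.one_le_count_iff_mem]
      constructor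
      · show 1 ≤ Multiset.count (c.2 + 1 + 1) p.parts
        omega
      · show ¬ 1 ≤ Multiset.count (c.2 + 1) p.parts
        omega
    · intro k hk
      rw [Finset.mem_coe, Finset.mem_filter, Finset.mem_range] at hk
      rw [Finset.mem_coe, Finset.mem_filter, mem_cells]
      obtain ⟨h1, h2, h2'⟩ := hk
      rw [← Multiset.one_le_count_iff_mem] at h2 h2'
      have h3 := col_succ p k
      have h3' := col_succ p (k + 1)
      have h2'' : 1 ≤ Multiset.count (k + 1 + 1) p.parts := h2
      have h4 : k + 1 < row p (col p k - 1) := by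
        rw [← lt_col_iff]; omega
      have h5 : ¬ (k + 1 + 1 < row p (col p k - 1)) := by
        rw [← lt_col_iff]; omega
      refine ⟨?_, ?_, ?_⟩
      · show k < row p (col p k - 1)
        omega
      · show row p (col p k - 1) = k + 2
        omega
      · show col p k = col p k - 1 + 1
        omega
    · intro c hc
      rw [Finset.mem_coe, Finset.mem_filter] at hc
      obtain ⟨h1, h2, h3⟩ := hc
      ext
      · show col p c.2 - 1 = c.1
        omega
      · rfl
    · intro k _
      rfl

/-! ### counting the partitions with given parts -/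

/-- `L t n e` is the number of the `t`-regular partitions of `n - e`, and `0` for `e > n`. -/
def L (t n e : ℕ) : ℤ := if e ≤ n then ((regular t (n - e)).card : ℤ) else 0

theorem L_nonneg (t n e : ℕ) : 0 ≤ L t n e := by
  unfold L
  split_ifs
  · exact Int.natCast_nonneg _
  · exact le_rfl

theorem L_zero (t n e : ℕ) (h : n < e) : L t n e = 0 := by
  unfold L
  rw [if_neg (by omega)]

theorem card_contains (t n : ℕ) (μ : Multiset ℕ) (hμ : ∀ a ∈ μ, ¬ t ∣ a) :
    (((regular t n).filter (fun p => μ ≤ p.parts)).card : ℤ) = L t n μ.sum := by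
  unfold L
  split_ifs with h
  · congr 1
    symm
    have hpos : ∀ a ∈ μ, 0 < a := by
      intro a ha
      rcases Nat.eq_zero_or_pos a with h0 | h0
      · exact absurd (h0 ▸ dvd_zero t) (hμ a ha)
      · exact h0
    refine Finset.card_bij (fun (q : (n - μ.sum).Partition) _ =>
      (⟨q.parts + μ, ?_, ?_⟩ : n.Partition)) ?_ ?_ ?_
    · intro a ha
      rw [Multiset.mem_add] at ha
      rcases ha with ha | ha
      · exact q.parts_pos ha
      · exact hpos a ha
    · rw [Multiset.sum_add, q.parts_sum]
      omega
    · intro q hq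
      rw [regular, Finset.mem_filter] at hq
      rw [Finset.mem_filter, regular, Finset.mem_filter]
      refine ⟨⟨Finset.mem_univ _, ?_⟩, ?_⟩
      · intro a ha
        rw [Multiset.mem_add] at ha
        rcases ha with ha | ha
        · exact hq.2 a ha
        · exact hμ a ha
      · exact Multiset.le_add_left _ _
    · intro q _ q' _ hqq
      have h1 := congrArg Nat.Partition.parts hqq
      simp only at h1
      exact Nat.Partition.ext (add_right_cancel h1)
    · intro p hp
      rw [Finset.mem_filter, regular, Finset.mem_filter] at hp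
      obtain ⟨ν, hν⟩ := Multiset.le_iff_exists_add.1 hp.2
      have hsum : ν.sum = n - μ.sum := by
        have := p.parts_sum
        rw [hν, Multiset.sum_add] at this
        omega
      refine ⟨⟨ν, ?_, hsum⟩, ?_, ?_⟩
      · intro a ha
        apply p.parts_pos
        rw [hν, Multiset.mem_add]
        exact Or.inr ha
      · rw [regular, Finset.mem_filter]
        refine ⟨Finset.mem_univ _, ?_⟩
        intro a ha
        apply hp.1.2
        rw [hν, Multiset.mem_add]
        exact Or.inr ha
      · apply Nat.Partition.ext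
        simp only
        rw [hν, add_comm]
  · rw [Finset.card_eq_zero.2]
    · rfl
    · rw [Finset.filter_eq_empty_iff]
      intro p _ hp
      obtain ⟨ν, hν⟩ := Multiset.le_iff_exists_add.1 hp
      have := p.parts_sum
      rw [hν, Multiset.sum_add] at this
      omega

/-! ### the expression for `b t 2 n` -/

/-- the linear form giving `b t 2 n` -/
def S (t n : ℕ) (G : ℕ → ℤ) : ℤ :=
  ∑ k ∈ range n, (if t ∣ k + 1 then 0 else G (2 * (k + 1))) +
    ∑ k ∈ range n, (if t ∣ k + 2 then 0 else G (k + 2) - (if t ∣ k + 1 then 0 else G (2 * k + 3)))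

theorem b_eq (t n : ℕ) : (b t 2 n : ℤ) = S t n (L t n) := by
  unfold b S
  have h1 : ∀ p : n.Partition, hooks 2 p = ∑ k ∈ range n, (if 2 ≤ p.parts.count (k + 1) then 1 else 0) +
      ∑ k ∈ range n, (if k + 2 ∈ p.parts ∧ k + 1 ∉ p.parts then 1 else 0) := by
    intro p
    rw [hooks_two, Finset.card_filter, Finset.card_filter]
  simp only [h1]
  rw [Finset.sum_add_distrib, Finset.sum_comm, Finset.sum_comm (s := regular t n) (t := range n)
    (f := fun p k => (if k + 2 ∈ p.parts ∧ k + 1 ∉ p.parts then 1 else 0))]
  push_cast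
  congr 1
  · apply Finset.sum_congr rfl
    intro k _
    have h2 : ∑ p ∈ regular t n, (if 2 ≤ p.parts.count (k + 1) then (1 : ℤ) else 0) =
        (((regular t n).filter (fun p => Multiset.replicate 2 (k + 1) ≤ p.parts)).card : ℤ) := by
      rw [Finset.card_filter]
      push_cast
      apply Finset.sum_congr rfl
      intro p _
      simp only [Multiset.le_count_iff_replicate_le]
    rw [h2]
    split_ifs with h
    · rw [Finset.card_eq_zero.2]
      · rfl
      · rw [Finset.filter_eq_empty_iff]
        intro p hp hle
        rw [regular, Finset.mem_filter] at hp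
        refine hp.2 (k + 1) ?_ h
        exact Multiset.mem_of_le hle (by simp)
    · rw [card_contains]
      · simp [two_mul, Multiset.replicate_succ]
      · intro a ha
        rw [Multiset.mem_replicate] at ha
        rw [ha.2]
        exact h
  · apply Finset.sum_congr rfl
    intro k _
    split_ifs with h h'
    · apply Finset.sum_eq_zero
      intro p hp
      rw [regular, Finset.mem_filter] at hp
      rw [if_neg]
      rintro ⟨h3, _⟩
      exact hp.2 _ h3 h
    · have h2 : ∑ p ∈ regular t n, (if k + 2 ∈ p.parts ∧ k + 1 ∉ p.parts then (1 : ℤ) else 0) =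
          (((regular t n).filter (fun p => ({k + 2} : Multiset ℕ) ≤ p.parts)).card : ℤ) := by
        rw [Finset.card_filter]
        push_cast
        apply Finset.sum_congr rfl
        intro p hp
        rw [regular, Finset.mem_filter] at hp
        have h3 : k + 1 ∉ p.parts := fun h4 => hp.2 _ h4 h'
        simp [h3]
      rw [h2, card_contains]
      · simp
      · intro a ha
        rw [Multiset.mem_singleton] at ha
        rw [ha]; exact h
    · have h2 : ∑ p ∈ regular t n, (if k + 2 ∈ p.parts ∧ k + 1 ∉ p.parts then (1 : ℤ) else 0) =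
          (((regular t n).filter (fun p => ({k + 2} : Multiset ℕ) ≤ p.parts)).card : ℤ) -
          (((regular t n).filter (fun p => ({k + 2, k + 1} : Multiset ℕ) ≤ p.parts)).card : ℤ) := by
        rw [Finset.card_filter, Finset.card_filter]
        push_cast
        rw [← Finset.sum_sub_distrib]
        apply Finset.sum_congr rfl
        intro p _
        have h3 : ({k + 2, k + 1} : Multiset ℕ) ≤ p.parts ↔ k + 2 ∈ p.parts ∧ k + 1 ∈ p.parts := by
          rw [Multiset.le_iff_subset (by simp)]
          constructor
          · intro h4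
            exact ⟨h4 (by simp), h4 (by simp)⟩
          · rintro ⟨h4, h5⟩ a ha
            rw [Multiset.insert_eq_cons, Multiset.mem_cons, Multiset.mem_singleton] at ha
            rcases ha with rfl | rfl
            · exact h4
            · exact h5
        simp only [Multiset.singleton_le, h3]
        by_cases h4 : k + 2 ∈ p.parts <;> by_cases h5 : k + 1 ∈ p.parts <;> simp [h4, h5]
      rw [h2, card_contains, card_contains]
      · have e1 : ({k + 2} : Multiset ℕ).sum = k + 2 := by simp
        have e2 : ({k + 2, k + 1} : Multiset ℕ).sum = 2 * k + 3 := by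
          rw [Multiset.insert_eq_cons, Multiset.sum_cons, Multiset.sum_singleton]
          ring
        rw [e1, e2]
      · intro a ha
        rw [Multiset.insert_eq_cons, Multiset.mem_cons, Multiset.mem_singleton] at ha
        rcases ha with rfl | rfl
        · exact h
        · exact h'
      · intro a ha
        rw [Multiset.mem_singleton] at ha
        rw [ha]; exact h

/-! ### monotonicity in `G` for even `m` -/

theorem S_mono (m n : ℕ) (hm : 2 ∣ m) (G G' : ℕ → ℤ) (hG : ∀ e, G e ≤ G' e)
    (h0 : ∀ e, n < e → G e = G' e) : S m n G ≤ S m n G' := by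
  unfold S
  obtain ⟨D, hD⟩ : ∃ D : ℕ → ℤ, D = fun e => G' e - G e := ⟨_, rfl⟩
  have hD0 : ∀ e, 0 ≤ D e := fun e => by rw [hD]; simp only; linarith [hG e]
  have hDn : ∀ e, n < e → D e = 0 := fun e he => by rw [hD]; simp only; linarith [h0 e he]
  apply add_le_add
  · apply Finset.sum_le_sum
    intro k _
    split_ifs
    · exact le_rfl
    · exact hG _
  · rw [← sub_nonneg, ← Finset.sum_sub_distrib]
    have h1 : ∀ k ∈ range n, (if m ∣ k + 2 then 0 else D (k + 2)) - D (2 * k + 3) ≤
        (if m ∣ k + 2 then 0 else G' (k + 2) - (if m ∣ k + 1 then 0 else G' (2 * k + 3))) -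
          (if m ∣ k + 2 then 0 else G (k + 2) - (if m ∣ k + 1 then 0 else G (2 * k + 3))) := by
      intro k _
      have h2 := hD0 (2 * k + 3)
      rw [hD] at h2 ⊢
      simp only at h2 ⊢
      split_ifs <;> linarith
    refine le_trans ?_ (Finset.sum_le_sum h1)
    rw [Finset.sum_sub_distrib, sub_nonneg]
    have h3 : ∑ k ∈ range n, D (2 * k + 3) =
        ∑ k ∈ (range n).filter (fun k => 2 * k + 3 ≤ n), D (2 * k + 3) := by
      rw [Finset.sum_filter]
      apply Finset.sum_congr rfl
      intro k _
      split_ifs with h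
      · rfl
      · exact hDn _ (by omega)
    have h4 : ∑ k ∈ (range n).filter (fun k => 2 * k + 3 ≤ n), D (2 * k + 3) =
        ∑ e ∈ ((range n).filter (fun k => 2 * k + 3 ≤ n)).image (fun k => 2 * k + 1), D (e + 2) := by
      rw [Finset.sum_image]
      intro x _ y _ hxy
      simp only at hxy
      omega
    rw [h3, h4, ← Finset.sum_filter_add_sum_filter_not (range n) (fun k => m ∣ k + 2)
      (fun k => if m ∣ k + 2 then 0 else D (k + 2))]
    have h5 : ∑ k ∈ (range n).filter (fun k => m ∣ k + 2), (if m ∣ k + 2 then 0 else D (k + 2)) = 0 := by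
      apply Finset.sum_eq_zero
      intro k hk
      rw [Finset.mem_filter] at hk
      rw [if_pos hk.2]
    have h6 : ∑ k ∈ (range n).filter (fun k => ¬ m ∣ k + 2), (if m ∣ k + 2 then 0 else D (k + 2)) =
        ∑ k ∈ (range n).filter (fun k => ¬ m ∣ k + 2), D (k + 2) := by
      apply Finset.sum_congr rfl
      intro k hk
      rw [Finset.mem_filter] at hk
      rw [if_neg hk.2]
    rw [h5, h6, zero_add]
    apply Finset.sum_le_sum_of_subset_of_nonneg
    · intro e he
      rw [Finset.mem_image] at he
      obtain ⟨k, hk, rfl⟩ := he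
      rw [Finset.mem_filter, Finset.mem_range] at hk
      rw [Finset.mem_filter, Finset.mem_range]
      refine ⟨by omega, ?_⟩
      intro hdvd
      have := hm.trans hdvd
      omega
    · intro e _ _
      exact hD0 _

/-! ### from `t` to `t + 1` -/

theorem sum_mult (t n : ℕ) (ht : 1 ≤ t) (g : ℕ → ℤ) (hg : ∀ s, n < s → g s = 0) :
    ∑ k ∈ range n, (if t ∣ k + 1 then g (k + 1) else 0) = ∑ j ∈ range n, g (t * (j + 1)) := by
  have h1 : ∑ j ∈ range n, g (t * (j + 1)) =
      ∑ j ∈ (range n).filter (fun j => t * (j + 1) ≤ n), g (t * (j + 1)) := by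
    rw [Finset.sum_filter]
    apply Finset.sum_congr rfl
    intro j _
    split_ifs with h
    · rfl
    · exact hg _ (by omega)
  rw [h1, ← Finset.sum_filter]
  symm
  apply Finset.sum_nbij' (fun j => t * (j + 1) - 1) (fun k => (k + 1) / t - 1)
  · intro j hj
    rw [Finset.mem_filter, Finset.mem_range] at hj ⊢
    have h2 : 1 ≤ t * (j + 1) := Nat.mul_pos ht (by omega)
    refine ⟨by omega, ?_⟩
    rw [Nat.sub_add_cancel h2]
    exact dvd_mul_right _ _
  · intro k hk
    rw [Finset.mem_filter, Finset.mem_range] at hk ⊢
    obtain ⟨hk1, c, hc⟩ := hk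
    have h2 : (k + 1) / t = c := by rw [hc]; exact Nat.mul_div_cancel_left c ht
    rw [h2]
    have h3 : 1 ≤ c := by
      rcases Nat.eq_zero_or_pos c with h0 | h0
      · rw [h0] at hc; omega
      · exact h0
    rw [Nat.sub_add_cancel h3]
    have h4 : c ≤ t * c := Nat.le_mul_of_pos_left c ht
    omega
  · intro j hj
    have h2 : 1 ≤ t * (j + 1) := Nat.mul_pos ht (by omega)
    rw [Nat.sub_add_cancel h2, Nat.mul_div_cancel_left _ ht]
    omega
  · intro k hk
    rw [Finset.mem_filter, Finset.mem_range] at hk
    obtain ⟨hk1, c, hc⟩ := hk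
    have h2 : (k + 1) / t = c := by rw [hc]; exact Nat.mul_div_cancel_left c ht
    rw [h2]
    have h3 : 1 ≤ c := by
      rcases Nat.eq_zero_or_pos c with h0 | h0
      · rw [h0] at hc; omega
      · exact h0
    rw [Nat.sub_add_cancel h3]
    omega
  · intro j hj
    have h2 : 1 ≤ t * (j + 1) := Nat.mul_pos ht (by omega)
    rw [Nat.sub_add_cancel h2]

theorem sum_mult' (t n : ℕ) (ht : 2 ≤ t) (g : ℕ → ℤ) (hg : ∀ s, n < s → g s = 0) :
    ∑ k ∈ range n, (if t ∣ k + 2 then g (k + 2) else 0) = ∑ j ∈ range n, g (t * (j + 1)) := by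
  rw [← sum_mult t n (by omega) g hg]
  have h1 := Finset.sum_range_succ' (fun k => if t ∣ k + 1 then g (k + 1) else 0) n
  have h2 := Finset.sum_range_succ (fun k => if t ∣ k + 1 then g (k + 1) else 0) n
  have h3 : (if t ∣ n + 1 then g (n + 1) else 0) = 0 := by
    rw [hg (n + 1) (by omega)]
    simp
  have h4 : ¬ t ∣ 0 + 1 := by
    intro h
    have := Nat.le_of_dvd (by omega) h
    omega
  simp only [if_neg h4, add_zero] at h1
  rw [h3, add_zero] at h2
  rw [← h2, h1]

theorem sum_even_odd (n : ℕ) (f : ℕ → ℤ) :
    ∑ j ∈ range (2 * n), f j = ∑ i ∈ range n, (f (2 * i) + f (2 * i + 1)) := by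
  induction n with
  | zero => simp
  | succ n ih =>
    rw [Finset.sum_range_succ, ← ih, Nat.mul_add, Finset.sum_range_succ, Finset.sum_range_succ]
    ring

/-- the part of `S t n G` which depends on `t` -/
def Q (t n : ℕ) (G : ℕ → ℤ) : ℤ := ∑ i ∈ range n, (G (t * (2 * i + 1)) + 2 * G (2 * t * (i + 1)) -
  G (2 * t * (i + 1) - 1) - G (2 * t * (i + 1) + 1))

theorem S_eq (t n : ℕ) (ht : 2 ≤ t) (G : ℕ → ℤ) (hG : ∀ e, n < e → G e = 0) :
    S t n G = ∑ k ∈ range n, G (2 * (k + 1)) + ∑ k ∈ range n, (G (k + 2) - G (2 * k + 3)) - Q t n G := by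
  have h1 : ∑ k ∈ range n, (if t ∣ k + 1 then 0 else G (2 * (k + 1))) =
      ∑ k ∈ range n, G (2 * (k + 1)) - ∑ j ∈ range n, G (2 * (t * (j + 1))) := by
    rw [← sum_mult t n (by omega) (fun s => G (2 * s)) (fun s hs => hG _ (by omega)),
      ← Finset.sum_sub_distrib]
    apply Finset.sum_congr rfl
    intro k _
    split_ifs <;> ring
  have h2 : ∑ k ∈ range n, (if t ∣ k + 2 then 0 else G (k + 2) - (if t ∣ k + 1 then 0 else G (2 * k + 3))) =
      ∑ k ∈ range n, (G (k + 2) - G (2 * k + 3)) -
        ∑ j ∈ range n, (G (t * (j + 1)) - G (2 * (t * (j + 1)) - 1)) +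
        ∑ j ∈ range n, G (2 * (t * (j + 1)) + 1) := by
    rw [← sum_mult' t n ht (fun s => G s - G (2 * s - 1)) (fun s hs => by
        rw [hG s hs, hG (2 * s - 1) (by omega)]; ring),
      ← sum_mult t n (by omega) (fun s => G (2 * s + 1)) (fun s hs => hG _ (by omega)),
      ← Finset.sum_sub_distrib, ← Finset.sum_add_distrib]
    apply Finset.sum_congr rfl
    intro k _
    have e1 : 2 * (k + 2) - 1 = 2 * k + 3 := by omega
    have e2 : 2 * (k + 1) + 1 = 2 * k + 3 := by omega
    simp only [e1, e2]
    by_cases ha : t ∣ k + 2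
    · have hb : ¬ t ∣ k + 1 := by
        intro hb
        have := (Nat.dvd_add_right hb).1 (show t ∣ (k + 1) + 1 from ha)
        have := Nat.le_of_dvd (by omega) this
        omega
      rw [if_pos ha, if_pos ha, if_neg hb]
      ring
    · rw [if_neg ha, if_neg ha]
      split_ifs <;> ring
  have h3 : ∑ j ∈ range n, G (t * (j + 1)) =
      ∑ i ∈ range n, (G (t * (2 * i + 1)) + G (2 * t * (i + 1))) := by
    have h4 : ∑ j ∈ range n, G (t * (j + 1)) = ∑ j ∈ range (2 * n), G (t * (j + 1)) := by
      apply Finset.sum_subset
      · intro j hj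
        rw [Finset.mem_range] at hj ⊢
        omega
      · intro j _ hj
        rw [Finset.mem_range] at hj
        apply hG
        have : j + 1 ≤ t * (j + 1) := Nat.le_mul_of_pos_left _ (by omega)
        omega
    rw [h4, sum_even_odd n (fun j => G (t * (j + 1)))]
    apply Finset.sum_congr rfl
    intro i _
    have e1 : t * (2 * i + 1 + 1) = 2 * t * (i + 1) := by ring
    simp only [e1]
  unfold S Q
  rw [h1, h2]
  have e3 : ∀ j : ℕ, 2 * (t * (j + 1)) = 2 * t * (j + 1) := fun j => by ring
  simp only [Finset.sum_sub_distrib, Finset.sum_add_distrib, e3, ← Finset.mul_sum] at h3 ⊢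
  rw [h3]
  ring

theorem Q_anti (t n : ℕ) (ht : 1 ≤ t) (G : ℕ → ℤ) (h1 : ∀ e, G (e + 1) ≤ G e)
    (h2 : ∀ e, G (e + 1) + G (e + 2) ≤ G e + G (e + 1 + 2))
    (h3 : ∀ e, G (e + 1) + G (e + (t - 1)) ≤ G e + G (e + 1 + (t - 1))) :
    Q (t + 1) n G ≤ Q t n G := by
  have hanti : ∀ k e, G (e + k) ≤ G e := by
    intro k
    induction k with
    | zero => intro e; simp
    | succ k ih =>
      intro e
      exact (h1 (e + k)).trans (ih e)
  have h2' : ∀ k e, G (e + 2 * k) - G (e + 2 * k + 1) ≤ G e - G (e + 1) := by
    intro k
    induction k with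
    | zero => intro e; simp
    | succ k ih =>
      intro e
      have h4 := ih e
      have h5 := h2 (e + 2 * k)
      have e1 : e + 2 * (k + 1) = e + 2 * k + 2 := by ring
      have e2 : e + 2 * (k + 1) + 1 = e + 2 * k + 1 + 2 := by ring
      rw [e2, e1]
      linarith
  unfold Q
  apply Finset.sum_le_sum
  intro i _
  obtain ⟨x, hx⟩ : ∃ x, x = t * (2 * i + 1) := ⟨_, rfl⟩
  have e1 : (t + 1) * (2 * i + 1) = x + 1 + 2 * i := by rw [hx]; ring
  have e2 : 2 * t * (i + 1) = x + t := by rw [hx]; ring
  have e3 : 2 * (t + 1) * (i + 1) = x + t + 2 * (i + 1) := by rw [hx]; ring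
  rw [e1, e2, e3, ← hx]
  have e4 : x + t - 1 = x + (t - 1) := by omega
  have e5 : x + t + 2 * (i + 1) - 1 = x + t + 2 * i + 1 := by omega
  rw [e4, e5]
  have f1 := hanti (2 * i) (x + 1)
  have f2 := h3 x
  have f3 := h2' (i + 1) (x + t)
  have f4 := h1 (x + t + 2 * i + 1)
  have e6 : x + 1 + (t - 1) = x + t := by omega
  have e7 : x + t + 2 * i + 1 + 1 = x + t + 2 * (i + 1) := by ring
  rw [e6] at f2
  rw [e7] at f4
  linarith

/-! ### the inequalities between the numbers of the partitions -/

theorem L_anti (t n : ℕ) (ht : 2 ≤ t) (e : ℕ) : L t n (e + 1) ≤ L t n e := by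
  rcases Nat.lt_or_ge n e with h | h
  · rw [L_zero t n e h, L_zero t n (e + 1) (by omega)]
  · obtain ⟨m, rfl⟩ : ∃ m, n = m + e := ⟨n - e, by omega⟩
    have h1 : L t (m + e) (e + 1) = L t m 1 := by
      unfold L
      have : m + e - (e + 1) = m - 1 := by omega
      rw [this]
      simp only [show (e + 1 ≤ m + e) ↔ (1 ≤ m) by omega]
    have h2 : L t (m + e) e = ((regular t m).card : ℤ) := by
      unfold L
      rw [if_pos (by omega), Nat.add_sub_cancel]
    have h3 := card_contains t m {1} (by
      intro a ha
      rw [Multiset.mem_singleton] at ha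
      rw [ha]
      intro hd
      have := Nat.le_of_dvd (by omega) hd
      omega)
    rw [Multiset.sum_singleton] at h3
    rw [h1, h2, ← h3]
    exact_mod_cast Finset.card_filter_le _ _

theorem L_convex (t n q : ℕ) (ht : 2 ≤ t) (hq : 2 ≤ q) (htq : ¬ t ∣ q) (e : ℕ) :
    L t n (e + 1) + L t n (e + q) ≤ L t n e + L t n (e + 1 + q) := by
  rcases Nat.lt_or_ge n e with h | h
  · rw [L_zero t n e h, L_zero t n (e + 1) (by omega), L_zero t n (e + q) (by omega),
      L_zero t n (e + 1 + q) (by omega)]
  · obtain ⟨m, rfl⟩ : ∃ m, n = m + e := ⟨n - e, by omega⟩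
    have h1 : ∀ r, L t (m + e) (e + r) = L t m r := by
      intro r
      unfold L
      have : m + e - (e + r) = m - r := by omega
      rw [this]
      simp only [show (e + r ≤ m + e) ↔ (r ≤ m) by omega]
    have h2 : L t (m + e) e = ((regular t m).card : ℤ) := by
      unfold L
      rw [if_pos (by omega), Nat.add_sub_cancel]
    have ht1 : ¬ t ∣ 1 := by
      intro hd
      have := Nat.le_of_dvd (by omega) hd
      omega
    have h3 := card_contains t m {1} (by
      intro a ha
      rw [Multiset.mem_singleton] at ha
      rw [ha]; exact ht1)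
    have h4 := card_contains t m {q} (by
      intro a ha
      rw [Multiset.mem_singleton] at ha
      rw [ha]; exact htq)
    have h5 := card_contains t m {1, q} (by
      intro a ha
      rw [Multiset.insert_eq_cons, Multiset.mem_cons, Multiset.mem_singleton] at ha
      rcases ha with rfl | rfl
      · exact ht1
      · exact htq)
    rw [Multiset.sum_singleton] at h3 h4
    rw [Multiset.insert_eq_cons, Multiset.sum_cons, Multiset.sum_singleton] at h5
    rw [add_assoc, h1, h1, h1, h2, ← h3, ← h4, ← h5]
    have h6 : (regular t m).filter (fun p => (1 ::ₘ {q} : Multiset ℕ) ≤ p.parts) =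
        (regular t m).filter (fun p => ({1} : Multiset ℕ) ≤ p.parts) ∩
          (regular t m).filter (fun p => ({q} : Multiset ℕ) ≤ p.parts) := by
      ext p
      simp only [Finset.mem_inter, Finset.mem_filter, Multiset.singleton_le]
      have h7 : (1 ::ₘ {q} : Multiset ℕ) ≤ p.parts ↔ 1 ∈ p.parts ∧ q ∈ p.parts := by
        rw [Multiset.le_iff_subset]
        · constructor
          · intro h4
            exact ⟨h4 (by simp), h4 (by simp)⟩
          · rintro ⟨h4, h5⟩ a ha
            rw [Multiset.mem_cons, Multiset.mem_singleton] at ha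
            rcases ha with rfl | rfl
            · exact h4
            · exact h5
        · rw [Multiset.nodup_cons, Multiset.mem_singleton]
          exact ⟨by omega, Multiset.nodup_singleton _⟩
      rw [h7]
      tauto
    rw [h6]
    have h8 := Finset.card_union_add_card_inter
      ((regular t m).filter (fun p => ({1} : Multiset ℕ) ≤ p.parts))
      ((regular t m).filter (fun p => ({q} : Multiset ℕ) ≤ p.parts))
    have h9 : ((regular t m).filter (fun p => ({1} : Multiset ℕ) ≤ p.parts) ∪
      (regular t m).filter (fun p => ({q} : Multiset ℕ) ≤ p.parts)).card ≤ (regular t m).card :=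
      Finset.card_le_card (Finset.union_subset (Finset.filter_subset _ _) (Finset.filter_subset _ _))
    omega

theorem regular_card_mono (t n : ℕ) (ht : 1 ≤ t) : (regular t n).card ≤ (regular (t + 1) n).card := by
  have h1 := Nat.Partition.card_restricted_eq_card_countRestricted n (m := t) (by omega)
  have h2 := Nat.Partition.card_restricted_eq_card_countRestricted n (m := t + 1) (by omega)
  have e1 : regular t n = Nat.Partition.restricted n (¬ t ∣ ·) := rfl
  have e2 : regular (t + 1) n = Nat.Partition.restricted n (¬ (t + 1) ∣ ·) := rfl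
  rw [e1, e2, h1, h2]
  apply Finset.card_le_card
  intro p hp
  rw [Nat.Partition.countRestricted, Finset.mem_filter] at hp ⊢
  exact ⟨hp.1, fun i hi => (hp.2 i hi).trans (Nat.lt_succ_self t)⟩

theorem L_mono (t n : ℕ) (ht : 1 ≤ t) (e : ℕ) : L t n e ≤ L (t + 1) n e := by
  unfold L
  split_ifs
  · exact_mod_cast regular_card_mono t _ ht
  · exact le_rfl

theorem S_step (t n m : ℕ) (ht : 3 ≤ t) (hm : m = t ∨ m = t + 1) : S t n (L m n) ≤ S (t + 1) n (L m n) := by
  rw [S_eq t n (by omega) _ (fun e he => L_zero m n e he),
    S_eq (t + 1) n (by omega) _ (fun e he => L_zero m n e he)]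
  have h2 : ¬ m ∣ 2 := by
    intro h
    have := Nat.le_of_dvd (by omega) h
    omega
  have h3 : ¬ m ∣ t - 1 := by
    intro h
    have := Nat.le_of_dvd (by omega) h
    omega
  have h4 := Q_anti t n (by omega) (L m n) (L_anti m n (by omega))
    (L_convex m n 2 (by omega) le_rfl h2) (L_convex m n (t - 1) (by omega) (by omega) h3)
  linarith

/-- For all `t ≥ 3` and all `n`, the number of hooks of length two in all `t`-regular partitions of `n`
is at most the number of hooks of length two in all `(t + 1)`-regular partitions of `n`. -/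
theorem result : ∀ t : ℕ, 3 ≤ t → ∀ n : ℕ, b t 2 n ≤ b (t + 1) 2 n := by
  intro t ht n
  have h : (b t 2 n : ℤ) ≤ (b (t + 1) 2 n : ℤ) := by
    rw [b_eq, b_eq]
    have hL : ∀ e, L t n e ≤ L (t + 1) n e := L_mono t n (by omega)
    have h0 : ∀ e, n < e → L t n e = L (t + 1) n e := by
      intro e he
      rw [L_zero _ _ _ he, L_zero _ _ _ he]
    rcases Nat.even_or_odd t with he | ho
    · calc S t n (L t n) ≤ S t n (L (t + 1) n) := S_mono t n he.two_dvd _ _ hL h0
        _ ≤ S (t + 1) n (L (t + 1) n) := S_step t n (t + 1) ht (Or.inr rfl)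
    · calc S t n (L t n) ≤ S (t + 1) n (L t n) := S_step t n t ht (Or.inl rfl)
        _ ≤ S (t + 1) n (L (t + 1) n) := S_mono (t + 1) n (ho.add_one).two_dvd _ _ hL h0
  exact_mod_cast h

end Pool.Agent.Results.MP_6996b5_co.HookTwo
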